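import Mathlib
import Pool.Agent.W820.RQMINP1

/-! Task RQ-MINP (MP_8f2e1c_an): the minimal principle (port of `Pool.Agent.H790R3.RB.Abs3`). -/

set_option autoImplicit false

open Topology Filter Metric Set MeasureTheory
open Pool.Agent.H790R3.RB (CV hF cr ND wr rt ch loc Ix yx yc yk yx_diff yc_diff yk_diff exists_low
  vol_le lsc_comp StDISC StMAXI StCONT hF_iter_differentiable hF_iter_smul cr_eq_zero_iff
  ch_ne_zero cr_smul_left cr_smul_right cr_iter cr_trans)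
open Pool.Agent.W757.RC

namespace Pool.Agent.W820.MINP

theorem xp_diff {n s : ℕ} : Differentiable ℂ (xp : (Fin (n + s) → ℂ) → (Fin n → ℂ)) := by
  unfold xp
  rw [differentiable_pi]
  intro i
  exact differentiable_apply _

theorem norm_xp_sub_le {n s : ℕ} (x x' : Fin (n + s) → ℂ) : ‖xp x - xp x'‖ ≤ ‖x - x'‖ := by
  rw [pi_norm_le_iff_of_nonneg (norm_nonneg _)]
  intro i
  exact norm_le_pi_norm (x - x') (Fin.castAdd s i)

theorem ee_castAdd {d n s l : ℕ} (S : Sys d (n + s) s) (e : Fin l → (Fin n → ℂ) → ℂ) (i : Fin l)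
    (x : Fin (n + s) → ℂ) : ee S e (Fin.castAdd s i) x = e i (xp x) := by
  unfold ee
  rw [Fin.addCases_left]

theorem ee_natAdd {d n s l : ℕ} (S : Sys d (n + s) s) (e : Fin l → (Fin n → ℂ) → ℂ) (k : Fin s)
    (x : Fin (n + s) → ℂ) : ee S e (Fin.natAdd l k) x = bp x k - S.b k x := by
  unfold ee
  rw [Fin.addCases_right]

theorem ee_diff {d n s l : ℕ} {S₀ : BS d n} {S : Sys d (n + s) s} (hS : Ext S₀ S)
    {e : Fin l → (Fin n → ℂ) → ℂ} (he : ∀ i, DifferentiableOn ℂ (e i) S₀.U) (i : Fin (l + s)) :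
    DifferentiableOn ℂ (ee S e i) S.U := by
  refine Fin.addCases (fun i => ?_) (fun k => ?_) i
  · have h1 : ee S e (Fin.castAdd s i) = fun x => e i (xp x) := funext fun x => ee_castAdd S e i x
    rw [h1]
    exact (he i).comp xp_diff.differentiableOn (fun x hx => hS.U x hx)
  · have h1 : ee S e (Fin.natAdd l k) = fun x => bp x k - S.b k x :=
      funext fun x => ee_natAdd S e k x
    rw [h1]
    refine DifferentiableOn.sub ?_ (S.hb k)
    have : Differentiable ℂ (fun x : Fin (n + s) → ℂ => bp x k) := by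
      unfold bp; exact differentiable_apply _
    exact this.differentiableOn

/-- separation of parameters of the extension -/
theorem ext_sep {d n s l : ℕ} {S₀ : BS d n} {S : Sys d (n + s) s} (hS : Ext S₀ S)
    {e : Fin l → (Fin n → ℂ) → ℂ} (hH : Hyp S₀ e) (x₁ : Fin (n + s) → ℂ) (hx₁ : x₁ ∈ S.U) :
    ∃ ε : ℝ, 0 < ε ∧ ∀ x ∈ S.U, ‖x - x₁‖ < ε → (∀ i, ee S e i x = ee S e i x₁) →
      (∀ p : ℂ × ℂ, cr ((S.F x)^[S.per none] p) ((S.F x₁)^[S.per none] p) = 0) → x = x₁ := by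
  obtain ⟨ε₁, hε₁, h1⟩ := hH.sepe (xp x₁) (hS.U x₁ hx₁)
  obtain ⟨ε₂, hε₂, h2⟩ := Metric.eventually_nhds_iff.mp (hS.bl x₁ hx₁)
  refine ⟨min ε₁ ε₂, lt_min hε₁ hε₂, ?_⟩
  intro x hx hxx he hp
  have hxp : xp x = xp x₁ := by
    apply h1 (xp x) (hS.U x hx) ((norm_xp_sub_le x x₁).trans_lt (hxx.trans_le (min_le_left _ _)))
    · intro i
      have := he (Fin.castAdd s i)
      rwa [ee_castAdd, ee_castAdd] at this
    · intro p
      have h3 := hp p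
      have e1 : S.F x = S₀.F (xp x) := by
        unfold Pool.Agent.W757.RC.Sys.F Pool.Agent.H790R3.RB.Sys.F; rw [hS.co x hx]
      have e2 : S.F x₁ = S₀.F (xp x₁) := by
        unfold Pool.Agent.W757.RC.Sys.F Pool.Agent.H790R3.RB.Sys.F; rw [hS.co x₁ hx₁]
      rwa [e1, e2, hS.pn] at h3
  have hb := h2 (y := x) (by rw [dist_eq_norm]; exact hxx.trans_le (min_le_right _ _)) hxp
  funext j
  refine Fin.addCases (fun i => ?_) (fun k => ?_) j
  · exact congrFun hxp i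
  · have h4 := he (Fin.natAdd l k)
    rw [ee_natAdd, ee_natAdd, hb k] at h4
    exact sub_left_injective h4

/-- points in the linearised discs at some time are attracted -/
theorem KS_subset {d n s : ℕ} (S : Sys d n s) {KK : Option (Fin s) → (Fin n → ℂ) × (ℂ × ℂ) → ℂ}
    {N : Set (Fin n → ℂ)} {r : ℝ} {ω : Option (Fin s) → (Fin n → ℂ) × ℂ → ℂ}
    (hL : S.Lin KK N r ω) {Nt : ℕ} {r₁ : ℝ} {x : Fin n → ℂ} (hx : x ∈ N)
    {κ : Option (Fin s) → ℂ} (hκ : ∀ k, ‖κ k‖ * r₁ < r) : S.KS x ⊆ (S.WN ω Nt r₁ x κ)ᶜ := by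
  intro ζ hζ hW
  obtain ⟨k, l, hl, w, hw, hcr⟩ := hW
  have hxU : x ∈ S.U := hL.NU hx
  have hnd : ND (S.co x) := S.nd x hxU
  have hζ0 : ((ζ, 1) : ℂ × ℂ) ≠ 0 := by
    intro h; have := congrArg Prod.snd h; simp at this
  have hkw : ‖κ k * w‖ < r := by
    rw [norm_mul]
    exact (mul_le_mul_of_nonneg_left hw (norm_nonneg _)).trans_lt (hκ k)
  have hω := (hL.ωr k x hx (κ k * w) hkw).1
  set z := ω k (x, κ k * w) with hz
  have hch : S.cht k x z ≠ 0 := ch_ne_zero _ _ _ _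
  -- proportional vectors
  have hF1 : (S.F x)^[Nt] (ζ, 1) ≠ 0 := hnd.iter_ne Nt hζ0
  have hF2 : (S.F x)^[l] (S.cht k x z) ≠ 0 := hnd.iter_ne l hch
  obtain ⟨a, ha, h1⟩ := (cr_eq_zero_iff hF1 hF2).mp hcr
  obtain ⟨b, z', hb, hz', h2⟩ := S.contr x hxU k z hω
  have h3 : (S.F x)^[(S.per k - l) + Nt] (ζ, 1) =
      (a ^ d ^ (S.per k - l)) • (S.F x)^[S.per k] (S.cht k x z) := by
    rw [Function.iterate_add_apply, h1]
    show (hF (S.co x))^[S.per k - l] (a • _) = _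
    rw [hF_iter_smul]
    congr 1
    show (S.F x)^[S.per k - l] ((S.F x)^[l] (S.cht k x z)) = _
    rw [← Function.iterate_add_apply, Nat.sub_add_cancel hl.le]
  refine hζ k ((S.per k - l) + Nt) ⟨a ^ d ^ (S.per k - l) * b, z', mul_ne_zero (pow_ne_zero _ ha) hb,
    ?_, ?_⟩
  · refine lt_of_le_of_lt hz' (lt_of_le_of_lt ?_ hω)
    calc S.θ * ‖z‖ ≤ 1 * ‖z‖ := mul_le_mul_of_nonneg_right S.hθ.le (norm_nonneg _)
      _ = ‖z‖ := one_mul _
  · rw [h3]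
    have h4 : (S.F x)^[S.per k] (S.cht k x z) = b • S.cht k x z' := h2
    rw [h4, smul_smul]

theorem task (hLAM : StLAM) (hLIN : StLIN) (hLSC : StLSC) (hDI : StDI) (hUSC : StUSC)
    (hADO : StADO) (hLF : StLF) (hIN : StIN) (hCPT : StCPT) (hOPN : StOPN) (hEXC : StEXC)
    (hFKB : StFKB) (hNU : StNU) (hZZ : StZZ) (hJT : StJT) (hST : StST) (hNC : StNC)
    (hDISC : StDISC) (hMAXI : StMAXI) (hCONT : StCONT) : StMINP := by
  classical
  intro d n l S₀ e hH ρ' η hρ' hη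
  have hρ'' : 0 < min ρ' (S₀.ρ / 2) := lt_min hρ' (half_pos S₀.hρ)
  obtain ⟨Z, δ, M, ρ₂, h₀, hδ, hM, hρ₂0, hρ₂lt, hρ₂S, hh₀, hZ1, hZ2, hZ3, hZ4⟩ :=
    hZZ d n 0 l S₀ e hH.ed hH.sepe (min ρ' (S₀.ρ / 2)) hρ''
  have hρ₂ρ' : ρ₂ < ρ' := hρ₂lt.trans_le (min_le_left _ _)
  have hρ₂h : ρ₂ < S₀.ρ / 2 := hρ₂lt.trans_le (min_le_right _ _)
  obtain ⟨c₀, hc₀, hdi⟩ := hDI S₀.r₀ Z δ M S₀.hr₀ hδ hM hZ1
  set a₀ : ℝ := min (c₀ * h₀ / 32) (η / 8) with ha₀
  have ha₀0 : 0 < a₀ := lt_min (by positivity) (by positivity)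
  have ha₀1 : a₀ ≤ c₀ * h₀ / 32 := min_le_left _ _
  have ha₀2 : a₀ ≤ η / 8 := min_le_right _ _
  have hclU : closedBall S₀.xT ρ₂ ⊆ S₀.U := closedBall_subset_ball hρ₂S
  -- continuity of the distance functions
  have hrtc : ∀ ζ ∈ Z, ContinuousOn (fun x => rt (S₀.co x) (S₀.per none) ζ)
      (closedBall S₀.xT ρ₂) := by
    intro ζ hζ
    apply (Pool.Agent.H790R3.RB.rt_diff S₀ (S₀.per none) ζ).continuousOn.mono
    intro x hx
    exact ⟨hclU hx, (hZ2 x hx ζ hζ ζ (mem_ball_self hδ)).1⟩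
  set Hf : (Fin n → ℂ) → ℝ := fun x => ∑ ζ ∈ Z,
    ‖rt (S₀.co x) (S₀.per none) ζ - rt (S₀.co S₀.xT) (S₀.per none) ζ‖ ^ 2 with hHf
  have hHfc : ContinuousOn Hf (closedBall S₀.xT ρ₂) := by
    apply continuousOn_finset_sum
    intro ζ hζ
    exact (((hrtc ζ hζ).sub continuousOn_const).norm).pow 2
  have hHf0 : Hf S₀.xT = 0 := by simp [hHf]
  have hnh : closedBall S₀.xT ρ₂ ∈ 𝓝 S₀.xT := closedBall_mem_nhds _ hρ₂0
  have hev : ∀ᶠ x in 𝓝 S₀.xT, c₀ / 2 * Hf x < a₀ ∧ ∑ i, ‖e i x - e i S₀.xT‖ ^ 2 < h₀ / 2 := by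
    have h1 : ContinuousAt (fun x => c₀ / 2 * Hf x) S₀.xT :=
      continuousAt_const.mul (hHfc.continuousAt hnh)
    have h2 : ContinuousAt (fun x => ∑ i, ‖e i x - e i S₀.xT‖ ^ 2) S₀.xT := by
      apply tendsto_finset_sum
      intro i _
      have h3 : ContinuousAt (e i) S₀.xT :=
        (hH.ed i).continuousOn.continuousAt (ball_mem_nhds _ S₀.hρ)
      exact ((h3.sub continuousAt_const).norm).pow 2
    have h3 : ∀ᶠ x in 𝓝 S₀.xT, c₀ / 2 * Hf x < a₀ := by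
      apply h1.eventually_lt continuousAt_const
      rw [hHf0, mul_zero]; exact ha₀0
    have h4 : ∀ᶠ x in 𝓝 S₀.xT, ∑ i, ‖e i x - e i S₀.xT‖ ^ 2 < h₀ / 2 := by
      apply h2.eventually_lt continuousAt_const
      simp only [sub_self, norm_zero]
      rw [Finset.sum_eq_zero (fun i _ => by ring)]
      positivity
    exact h3.and h4
  obtain ⟨σ₂, hσ₂, hball⟩ := Metric.eventually_nhds_iff.mp hev
  refine ⟨min (min a₀ σ₂) ρ₂, lt_min (lt_min ha₀0 hσ₂) hρ₂0, ?_⟩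
  intro s S KK A ks ls R y₀ hExt hr0 hK hbq hcomp₀ hy₀ hvol₀ hG₀ hAc
  have hy₀σ₂ : ‖xp (yx y₀) - S₀.xT‖ < σ₂ :=
    hy₀.trans_le ((min_le_left _ _).trans (min_le_right _ _))
  have hy₀ρ : ‖xp (yx y₀) - S₀.xT‖ < ρ₂ := hy₀.trans_le (min_le_right _ _)
  have hvol₀' : volume (S.KS (yx y₀)) ≤ ENNReal.ofReal a₀ :=
    hvol₀.trans (ENNReal.ofReal_le_ofReal ((min_le_left _ _).trans (min_le_left _ _)))
  by_contra hcon
  push Not at hcon
  obtain ⟨hlamd, hbetd, hlamθ, hwr0, -⟩ := hLAM d (n + s) s S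
  obtain ⟨hAdm₀, sel, col, hdet₀⟩ := hG₀
  have hball₀ := hball (show dist (xp (yx y₀)) S₀.xT < σ₂ by rw [dist_eq_norm]; exact hy₀σ₂)
  have hls : ∀ i ∈ A, ls i < S.per (ks i) := hAdm₀.lsp
  have hlam0 : ∀ k, S.lam k (yx y₀) ≠ 0 := hAdm₀.lam0
  -- the compact set of parameters
  set C : Set (Fin (n + s) → ℂ) := {q | q ∈ S.U ∧ xp q ∈ closedBall S₀.xT ρ₂ ∧
    (∀ k, S.b k q = bp q k) ∧ ∀ k, S.lam k q = S.lam k (yx y₀)} with hC
  have hCc : IsCompact C := by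
    have h1 : C = {q | q ∈ S.U ∧ xp q ∈ closedBall S₀.xT (S₀.ρ / 2) ∧ (∀ k, S.b k q = bp q k) ∧
        ∀ k, S.lam k q = S.lam k (yx y₀)} ∩ xp ⁻¹' closedBall S₀.xT ρ₂ := by
      ext q
      simp only [hC, mem_ofPred_eq, mem_inter_iff, mem_preimage]
      constructor
      · rintro ⟨h1, h2, h3, h4⟩
        exact ⟨⟨h1, closedBall_subset_closedBall hρ₂h.le h2, h3, h4⟩, h2⟩
      · rintro ⟨⟨h1, -, h3, h4⟩, h2⟩
        exact ⟨h1, h2, h3, h4⟩
    rw [h1]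
    exact hcomp₀.inter_right (isClosed_closedBall.preimage xp_diff.continuous)
  have hCU : C ⊆ S.U := fun q hq => hq.1
  have hy₀C : yx y₀ ∈ C := by
    refine ⟨hAdm₀.xU, ?_, hbq, fun _ => rfl⟩
    rw [mem_closedBall, dist_eq_norm]; exact hy₀ρ.le
  -- transfer to the base family
  have hFeq : ∀ x ∈ S.U, S.F x = S₀.F (xp x) := by
    intro x hx
    unfold Pool.Agent.W757.RC.Sys.F Pool.Agent.H790R3.RB.Sys.F; rw [hExt.co x hx]
  have hrteq : ∀ x ∈ S.U, ∀ ζ : ℂ, rt (S.co x) (S.per none) ζ = rt (S₀.co (xp x)) (S₀.per none) ζ := by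
    intro x hx ζ
    rw [hExt.co x hx, hExt.pn]
  have hZ2' : ∀ x ∈ C, ∀ ζ ∈ Z, ∀ w ∈ ball ζ δ,
      ((S.F x)^[S.per none] (w, 1)).2 ≠ 0 ∧ ‖rt (S.co x) (S.per none) w‖ ≤ M := by
    intro x hx ζ hζ w hw
    have h1 := hZ2 (xp x) hx.2.1 ζ hζ w hw
    rw [hrteq x hx.1, hFeq x hx.1, hExt.pn]
    exact h1
  have hZ3' : ∀ x ∈ C, ∀ x' ∈ C,
        (∀ ζ ∈ Z, rt (S.co x) (S.per none) ζ = rt (S.co x') (S.per none) ζ) →
        ∀ p : ℂ × ℂ, cr ((S.F x)^[S.per none] p) ((S.F x')^[S.per none] p) = 0 := by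
    intro x hx x' hx' h p
    rw [hFeq x hx.1, hFeq x' hx'.1, hExt.pn]
    apply hZ3 (xp x) hx.2.1 (xp x') hx'.2.1
    intro ζ hζ
    have := h ζ hζ
    rwa [hrteq x hx.1, hrteq x' hx'.1] at this
  -- the linearised discs
  obtain ⟨N, r, ω, hKN, hL⟩ := hLIN d (n + s) s S KK hK C hCc (by
    intro x hx
    refine ⟨hCU hx, fun k => ?_⟩
    rw [hx.2.2.2 k]; exact hlam0 k)
  have hy₀N : yx y₀ ∈ N := hKN hy₀C
  set Fh : Fin (2 * d - 2) → ℂ := fun i =>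
    KK (ks i) (yx y₀, (S.F (yx y₀))^[ls i] (yc y₀ i, 1)) / yk y₀ (ks i) with hFh
  obtain ⟨rF, hrF, hlow⟩ := exists_low A Fh
  have hr₀ := S.hr₀ none
  have hr := hL.hr
  set Kc : ℝ := 2 / (S.r₀ none * rF) + 1 + ∑ k : Fin s, ‖yk y₀ (some k)‖ with hKcdef
  have hsum0 : 0 ≤ ∑ k : Fin s, ‖yk y₀ (some k)‖ := Finset.sum_nonneg fun k _ => norm_nonneg _
  have hq0 : 0 < 2 / (S.r₀ none * rF) := by positivity
  have hKc1 : 1 ≤ Kc := by rw [hKcdef]; linarith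
  have hKcq : 2 / (S.r₀ none * rF) < Kc := by rw [hKcdef]; linarith
  have hKc0 : 0 < Kc := by linarith
  have hKcy : ∀ k, ‖yk y₀ k‖ ≤ Kc := by
    intro k
    cases k with
    | none =>
      have : yk y₀ none = 1 := rfl
      rw [this, norm_one]; exact hKc1
    | some k =>
      have h1 : ‖yk y₀ (some k)‖ ≤ ∑ k : Fin s, ‖yk y₀ (some k)‖ :=
        Finset.single_le_sum (f := fun k : Fin s => ‖yk y₀ (some k)‖)
          (fun k _ => norm_nonneg _) (Finset.mem_univ k)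
      rw [hKcdef]; linarith
  set r₁ : ℝ := r / (4 * Kc) with hr₁def
  set r₂ : ℝ := r / (2 * Kc) with hr₂def
  have hr₁0 : 0 < r₁ := by positivity
  have hr₁₂ : r₁ < r₂ := by
    rw [hr₁def, hr₂def]
    apply div_lt_div_of_pos_left hr (by positivity)
    linarith
  have hKr₁ : Kc * r₁ < r := by
    have : Kc * r₁ = r / 4 := by rw [hr₁def]; field_simp
    rw [this]; linarith
  have hKr₂ : Kc * r₂ < r := by
    have : Kc * r₂ = r / 2 := by rw [hr₂def]; field_simp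
    rw [this]; linarith
  have hr₁r : r₁ < r := by
    have : r₁ ≤ Kc * r₁ := le_mul_of_one_le_left hr₁0.le hKc1
    linarith
  set E := ee S e with hE
  have hed : ∀ i, DifferentiableOn ℂ (E i) S.U := fun i => ee_diff hExt hH.ed i
  obtain ⟨L₀, hL₀⟩ := hIN d (n + s) s (l + s) S KK r N ω E A ks ls C Kc y₀ hK hL hy₀N hy₀C hAdm₀ hKcy
  obtain ⟨L, hLL₀, hKL⟩ := exists_L hLAM S hAdm₀.xU A ks Fh Kc hr L₀
  have hy₀L : y₀ ∈ S.Leaf ω E A ks ls L C Kc y₀ Fh := hL₀ L hLL₀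
  have hcompL := hCPT d (n + s) s (l + s) S KK r N ω E A ks ls L C Kc y₀ Fh hK hL hed hCc hCU
    (hlam0 none) (fun x hx => hKN hx.1) hKL
  have hleafN : ∀ z ∈ S.Leaf ω E A ks ls L C Kc y₀ Fh, yx z ∈ N := by
    intro z hz
    exact hKN hz.1
  obtain ⟨Jt, hJd, hJ0⟩ := hJT d (n + s) s (l + s) S KK E A ks ls R sel col hK hed
  -- the area at the starting point
  obtain ⟨σ, N₀, hσ, hUSC'⟩ := hUSC d (n + s) s S (yx y₀) hAdm₀.xU a₀ ha₀0
  obtain ⟨Nt, hNt, hcov, hst⟩ := hST d (n + s) s S KK r N ω hK hL r₁ N₀ (yk y₀) hr₁0 hr₁r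
    hAdm₀.kap0 (fun k => (mul_le_mul_of_nonneg_right (hKcy k) hr₁0.le).trans_lt hKr₁)
  have hAN₀ : S.AN ω Nt r₁ (yx y₀) (yk y₀) ≤ 2 * a₀ := by
    apply vol_le (by positivity)
    have h1 := hUSC' (yx y₀) hAdm₀.xU (by simpa using hσ)
    calc volume (S.WN ω Nt r₁ (yx y₀) (yk y₀))ᶜ
        ≤ volume {ζ : ℂ | ∀ k, ∀ m ≤ N₀, ¬ S.InC k (yx y₀) ((S.F (yx y₀))^[m] (ζ, 1))} := by
          refine measure_mono ?_
          intro ζ hζ k m' hm' hin
          exact hζ (hst (yx y₀) hy₀N ζ ⟨k, m', hm', hin⟩)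
      _ ≤ volume (S.KS (yx y₀)) + ENNReal.ofReal a₀ := h1
      _ ≤ ENNReal.ofReal a₀ + ENNReal.ofReal a₀ := by gcongr
      _ = ENNReal.ofReal (2 * a₀) := by
          rw [← ENNReal.ofReal_add ha₀0.le ha₀0.le, two_mul]
  -- the functions on the leaf
  have hlsc : LowerSemicontinuousOn (fun z : Ix d (n + s) s → ℂ => S.AN ω Nt r₁ (yx z) (yk z))
      (S.Leaf ω E A ks ls L C Kc y₀ Fh) := by
    refine lsc_comp (g := fun z : Ix d (n + s) s → ℂ => (yx z, yk z))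
      (hLSC d (n + s) s S KK r N ω Nt r₁ (1 / S.r₀ none) hK hL hr₁0) ?_ ?_
    · apply Continuous.continuousOn
      exact yx_diff.continuous.prodMk (continuous_pi fun k => (yk_diff k).continuous)
    · intro z hz
      refine ⟨hleafN z hz, fun k => ?_, fun ζ hζ => hcov (yx z) (hleafN z hz) (yk z) rfl ζ hζ⟩
      exact (mul_le_mul_of_nonneg_right (hz.2.2.2.2.2.1 k) hr₁0.le).trans_lt hKr₁
  have hhc : ContinuousOn (fun z : Ix d (n + s) s → ℂ => c₀ / 2 * ∑ ζ ∈ Z,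
      ‖rt (S.co (yx z)) (S.per none) ζ - rt (S₀.co S₀.xT) (S₀.per none) ζ‖ ^ 2)
      (S.Leaf ω E A ks ls L C Kc y₀ Fh) := by
    have h1 : ContinuousOn (fun z : Ix d (n + s) s → ℂ => Hf (xp (yx z)))
        (S.Leaf ω E A ks ls L C Kc y₀ Fh) :=
      hHfc.comp (xp_diff.continuous.comp yx_diff.continuous).continuousOn (fun z hz => hz.1.2.1)
    have h2 : ContinuousOn (fun z : Ix d (n + s) s → ℂ => c₀ / 2 * Hf (xp (yx z)))
        (S.Leaf ω E A ks ls L C Kc y₀ Fh) := continuousOn_const.mul h1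
    refine h2.congr ?_
    intro z hz
    simp only [hHf]
    congr 1
    apply Finset.sum_congr rfl
    intro ζ _
    rw [hrteq (yx z) hz.1.1]
  have hatt : ∀ z ∈ S.Leaf ω E A ks ls L C Kc y₀ Fh,
      ∀ i ∈ A, (yx z, (S.F (yx z))^[ls i] (yc z i, 1)) ∈ S.Dom (ks i) := by
    intro z hz
    exact (hLF d (n + s) s (l + s) S KK r N ω E A ks ls L C Kc y₀ z Fh hK hL hlam0 hls hKL
      (hleafN z hz) hz).1
  have hjc : ContinuousOn (fun z : Ix d (n + s) s → ℂ => ‖Jt z * ∏ k : Fin s, yk z (some k)‖)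
      (S.Leaf ω E A ks ls L C Kc y₀ Fh) := by
    apply ContinuousOn.norm
    apply ContinuousOn.mul
    · apply hJd.continuousOn.mono
      intro z hz
      exact ⟨hL.NU (hleafN z hz), fun k => hL.lam0 _ (hleafN z hz) k, hatt z hz⟩
    · apply continuousOn_finset_prod
      intro k _
      exact (yk_diff (some k)).continuous.continuousOn
  have hj₀ : 0 < ‖Jt y₀ * ∏ k : Fin s, yk y₀ (some k)‖ := by
    rw [norm_pos_iff]
    refine mul_ne_zero ?_ (Finset.prod_ne_zero_iff.mpr fun k _ => hAdm₀.kap0 _)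
    intro h
    exact hdet₀ ((hJ0 y₀ hAdm₀.xU hAdm₀.lam0 hAdm₀.att hAdm₀.kap0).mp h)
  obtain ⟨B, hB⟩ := hcompL.bddAbove_image hjc
  have hB' : ∀ z ∈ S.Leaf ω E A ks ls L C Kc y₀ Fh,
      ‖Jt z * ∏ k : Fin s, yk z (some k)‖ ≤ max B 1 := fun z hz =>
    (hB (mem_image_of_mem _ hz)).trans (le_max_left _ _)
  set lj : ℝ := |Real.log ‖Jt y₀ * ∏ k : Fin s, yk y₀ (some k)‖| with hlj
  set lB : ℝ := |Real.log (max B 1)| with hlB
  have hlj0 : 0 ≤ lj := abs_nonneg _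
  have hlB0 : 0 ≤ lB := abs_nonneg _
  set δ₀ : ℝ := a₀ / (1 + lB + lj) with hδ₀def
  have hδ₀ : 0 < δ₀ := by positivity
  have hδ₀le : δ₀ * (lB + lj) ≤ a₀ := by
    rw [hδ₀def, div_mul_eq_mul_div, div_le_iff₀ (by positivity)]
    nlinarith
  obtain ⟨y, hyL, hjy, hymin⟩ := hMAXI (Ix d (n + s) s → ℂ) _ _ _ _ y₀ δ₀ hcompL hlsc hhc hjc
    (fun z _ => norm_nonneg _) hδ₀ hy₀L hj₀
  -- the minimal point is inside
  have hyN : yx y ∈ N := hleafN y hyL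
  have hyC : yx y ∈ C := hyL.1
  have hmin0 : S.AN ω Nt r₁ (yx y) (yk y) + c₀ / 2 * Hf (xp (yx y)) ≤ 4 * a₀ := by
    have h1 := hymin y₀ hy₀L hj₀
    simp only [hrteq (yx y) hyC.1, hrteq (yx y₀) hAdm₀.xU] at h1
    have h3 : Real.log ‖Jt y * ∏ k : Fin s, yk y (some k)‖ ≤ lB :=
      (Real.log_le_log hjy (hB' y hyL)).trans (le_abs_self _)
    have h4 : - lj ≤ Real.log ‖Jt y₀ * ∏ k : Fin s, yk y₀ (some k)‖ := neg_abs_le _
    have h5 : c₀ / 2 * Hf (xp (yx y₀)) < a₀ := hball₀.1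
    have h7 : S.AN ω Nt r₁ (yx y) (yk y) + c₀ / 2 * Hf (xp (yx y)) -
        δ₀ * Real.log ‖Jt y * ∏ k : Fin s, yk y (some k)‖ ≤
        S.AN ω Nt r₁ (yx y₀) (yk y₀) + c₀ / 2 * Hf (xp (yx y₀)) -
        δ₀ * Real.log ‖Jt y₀ * ∏ k : Fin s, yk y₀ (some k)‖ := h1
    have h8 := mul_le_mul_of_nonneg_left h3 hδ₀.le
    have h9 := mul_le_mul_of_nonneg_left h4 hδ₀.le
    nlinarith
  have hANy0 : 0 ≤ S.AN ω Nt r₁ (yx y) (yk y) := ENNReal.toReal_nonneg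
  have hHf0' : 0 ≤ c₀ / 2 * Hf (xp (yx y)) := by
    apply mul_nonneg (by positivity)
    exact Finset.sum_nonneg fun ζ _ => by positivity
  have hHy : Hf (xp (yx y)) ≤ h₀ / 4 := by
    have h10 : c₀ * Hf (xp (yx y)) ≤ c₀ * (h₀ / 4) := by nlinarith
    exact le_of_mul_le_mul_left h10 hc₀
  have hANy : S.AN ω Nt r₁ (yx y) (yk y) ≤ η / 2 := by linarith
  have hyρ : ‖xp (yx y) - S₀.xT‖ < ρ₂ := by
    have h1 : ‖xp (yx y) - S₀.xT‖ ≤ ρ₂ := by
      have := hyC.2.1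
      rwa [mem_closedBall, dist_eq_norm] at this
    rcases h1.lt_or_eq with h | h
    · exact h
    · exfalso
      have h2 := hZ4 (xp (yx y)) h
      have h3 : ∑ i, ‖e i (xp (yx y)) - e i S₀.xT‖ ^ 2 = ∑ i, ‖e i (xp (yx y₀)) - e i S₀.xT‖ ^ 2 := by
        apply Finset.sum_congr rfl
        intro i _
        have h4 := hyL.2.1 (Fin.castAdd s i)
        rw [hE, ee_castAdd, ee_castAdd] at h4
        rw [h4]
      have h4 := hball₀.2
      rw [h3] at h2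
      have h5 : h₀ ≤ Hf (xp (yx y)) + ∑ i, ‖e i (xp (yx y₀)) - e i S₀.xT‖ ^ 2 := h2
      linarith
  have hne := norm_pos_iff.mp hjy
  have hyJ : Jt y ≠ 0 := (mul_ne_zero_iff.mp hne).1
  have hyk : ∀ k, yk y k ≠ 0 := by
    intro k
    cases k with
    | none => exact one_ne_zero
    | some k => exact Finset.prod_ne_zero_iff.mp (mul_ne_zero_iff.mp hne).2 k (Finset.mem_univ k)
  have hyA : S.Adm A ks ls y := ((hLF d (n + s) s (l + s) S KK r N ω E A ks ls L C Kc y₀ y Fh hK hL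
    hlam0 hls hKL hyN hyL).2.2 hyk).1
  -- the area at the minimal point
  have hκy : ∀ k, ‖yk y k‖ * r₁ < r := fun k =>
    (mul_le_mul_of_nonneg_right (hyL.2.2.2.2.2.1 k) hr₁0.le).trans_lt hKr₁
  have hfin : volume (S.WN ω Nt r₁ (yx y) (yk y))ᶜ ≠ ⊤ := by
    have h1 : (S.WN ω Nt r₁ (yx y) (yk y))ᶜ ⊆ closedBall 0 (1 / S.r₀ none) := by
      intro ζ hζ
      rw [mem_closedBall, dist_zero_right]
      by_contra hlt
      exact hζ (hcov (yx y) hyN (yk y) rfl ζ (not_le.mp hlt))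
    exact ((measure_mono h1).trans_lt measure_closedBall_lt_top).ne
  have hvoly : volume (S.KS (yx y)) ≤ ENNReal.ofReal (η / 2) := by
    refine (measure_mono (KS_subset S hL (Nt := Nt) hyN hκy)).trans ?_
    rw [← ENNReal.ofReal_toReal hfin]
    exact ENNReal.ofReal_le_ofReal hANy
  obtain ⟨σy, Ny, hσy, hUSCy⟩ := hUSC d (n + s) s S (yx y) hyA.xU (η / 2) (half_pos hη)
  have hvolz : ∀ x ∈ S.U, ‖x - yx y‖ < σy → volume (S.KS x) ≤ ENNReal.ofReal η := by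
    intro x hx hxy
    calc volume (S.KS x)
        ≤ volume {ζ : ℂ | ∀ k, ∀ m ≤ Ny, ¬ S.InC k x ((S.F x)^[m] (ζ, 1))} := by
          refine measure_mono ?_
          intro ζ hζ k m _
          exact hζ k m
      _ ≤ volume (S.KS (yx y)) + ENNReal.ofReal (η / 2) := hUSCy x hx hxy
      _ ≤ ENNReal.ofReal (η / 2) + ENNReal.ofReal (η / 2) := by gcongr
      _ = ENNReal.ofReal η := by
          rw [← ENNReal.ofReal_add (half_pos hη).le (half_pos hη).le, add_halves]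
  -- the open set
  set Ω : Set (Ix d (n + s) s → ℂ) := {z | ‖xp (yx z) - S₀.xT‖ < ρ'} ∩ {z | ‖yx z - yx y‖ < σy}
    with hΩdef
  have hΩ : IsOpen Ω := by
    apply IsOpen.inter
    · exact isOpen_lt (((xp_diff.continuous.comp yx_diff.continuous).sub continuous_const).norm)
        continuous_const
    · exact isOpen_lt ((yx_diff.continuous.sub continuous_const).norm) continuous_const
  have hyΩ : y ∈ Ω := by
    refine ⟨hyρ.trans hρ₂ρ', ?_⟩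
    simp only [mem_ofPred_eq, sub_self, norm_zero]
    exact hσy
  have hmax : ∀ (A' : Finset (Fin (2 * d - 2))) (ks' : Fin (2 * d - 2) → Option (Fin s))
        (ls' : Fin (2 * d - 2) → ℕ), ∀ z ∈ Ω,
        (A.card < A'.card → ¬ Goodc S KK E A' ks' ls' 0 z) ∧
        (A'.card = A.card → ¬ Goodc S KK E A' ks' ls' (R + 1) z) := by
    intro A' ks' ls' z hz
    constructor
    · intro hc hG
      exact (hcon A' ks' ls' z hz.1 (hvolz _ hG.1.xU hz.2)).1 hc hG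
    · intro hc hG
      exact (hcon A' ks' ls' z hz.1 (hvolz _ hG.1.xU hz.2)).2 hc hG
  have hnon : ∀ i ∉ A, ∀ k, ∀ m : ℕ, ¬ S.InC k (yx y) ((S.F (yx y))^[m] (yc y i, 1)) := by
    apply hNU d (n + s) s (l + s) S KK E A ks ls R y
    · refine ⟨hyA, sel, col, fun h => hyJ ((hJ0 y hyA.xU hyA.lam0 hyA.att hyk).mpr h)⟩
    · intro A' ks' ls' hcA'
      exact (hmax A' ks' ls' y hyΩ).1 hcA'
  have hfkb := fun k : Fin s => hFKB d (n + s) s (l + s) S KK r N ω E A ks ls L C Kc rF y₀ y Fh hK hL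
    hls hKL hyN hyL hyk hnon hrF k (fun i hi _ hF => hlow i hi hF)
  have hevC : ∀ᶠ z in 𝓝 y, (∀ i, E i (yx z) = E i (yx y)) →
      (∀ k, S.lam k (yx z) = S.lam k (yx y)) → yx z ∈ C := by
    have h1 : ∀ᶠ z in 𝓝 y, yx z ∈ S.U :=
      (S.hU.preimage yx_diff.continuous).mem_nhds hyA.xU
    have h2 : ∀ᶠ z in 𝓝 y, ‖xp (yx z) - S₀.xT‖ < ρ₂ :=
      (isOpen_lt (((xp_diff.continuous.comp yx_diff.continuous).sub continuous_const).norm)
        continuous_const).mem_nhds hyρ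
    filter_upwards [h1, h2] with z hz1 hz2 hze hzl
    refine ⟨hz1, ?_, fun k => ?_, fun k => ?_⟩
    · rw [mem_closedBall, dist_eq_norm]; exact hz2.le
    · have h3 := hze (Fin.natAdd l k)
      rw [hE, ee_natAdd, ee_natAdd, hyC.2.2.1 k, sub_self] at h3
      exact (sub_eq_zero.mp h3).symm
    · rw [hzl k, hyC.2.2.2 k]
  refine no_min hLAM hDISC hADO hLF hOPN hEXC hNU hNC hCONT S E hed (by have := hH.dim; omega) hK hΩ
    hδ hc₀ (fun ζ => rt (S₀.co S₀.xT) (S₀.per none) ζ) hr0 hZ2' hZ3' hdi hAc hls hmax hlam0 sel col hL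
    hKc1 hr₁0 hr₁₂ hKr₂ hKL hNt hcov hJd hJ0 hδ₀ y hyL hyN hyΩ hevC
    (ext_sep hExt hH (yx y) hyA.xU) hyk ?_ (fun k => (hfkb k).2) hyJ hymin
  intro k
  have h1 := (hfkb k).1
  have h2 : ‖yk y (some k)‖ ≤ 2 / (S.r₀ none * rF) := by
    rw [le_div_iff₀ (by positivity)]
    rw [le_div_iff₀ hr₀] at h1
    linarith
  exact h2.trans_lt hKcq

end Pool.Agent.W820.MINP
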